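import Pool.Agent.K3h17.BD.Thr

set_option autoImplicit false

/-!
# Billiards in convex polygons with algebraic vertices

Let `P` be a convex polygon whose vertices are algebraic numbers (as points of the complex plane),
for instance the right triangle with sides 3, 4, 5. The number of itineraries of length at most `k`
is at most `exp (C (k log (k + 1)) ^ (1 / 2))`. Suppose now that some angle of `P` is not a rational
multiple of `π`. Let `A` be a measurable set of states (position, direction) invariant under the
billiard flow, and let `om p A h` be the measure of the set of states whose membership in `A`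
changes when the direction is turned by `h`. If the lower limit of
`om p A h * log log (1 / h) / (h * log (1 / h) ^ 2)` as `h` tends to `0` is `0`, then `A` is null or
conull. The same holds for functions which are multiplied by `exp (i ω s)` under free motion for
the time `s` and by `χ i = ± 1` at each reflection in side `i`: they are constant almost
everywhere, and zero almost everywhere unless `ω = 0` and all `χ i = 1`.

The vertices of the polygons met by unfolded trajectories are quotients of polynomials with
integer coefficients in the coordinates of the vertices of `P`, of degree and logarithmic height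
at most linear in the length of the itinerary. By Liouville's inequality the determinants of
triples of them are zero or bounded below by `exp (-C m)` for all itineraries of length at most
`m`. So in a box of size `exp (-C m)` in the space of lines the vertices met are collinear, and
there are at most linearly many itineraries of length `m`.
-/

namespace Pool.Agent.Results.MP_d5e7a1_an.AlgebraicPolygons

open Pool.Agent.W780 Pool.Agent.W780.BB Pool.Agent.W780.PG MeasureTheory Pool.Agent.TH578.BE
  Pool.Agent.K3h17.BK Pool.Agent.K3h17.BD

open scoped Real

theorem result (n : ℕ) (p : Fin (n + 3) → ℂ) (hp : IsConvexPolygon p)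
    (halg : ∀ i, IsAlgebraic ℚ (p i)) :
    (∃ C : ℝ, ∀ k : ℕ, 1 ≤ k → ((itin p k).ncard : ℝ) ≤
      Real.exp (C * √((k : ℝ) * Real.log ((k : ℝ) + 1)))) ∧
    ((∃ i, Irrational (ang p i / π)) →
      (∀ A : Set (ℂ × ℝ), MeasurableSet A → IsInvariant p A → AlgBelow (om p A) →
        IsTrivial p A) ∧
      (∀ (ω : ℝ) (χ : Fin (n + 3) → ℂ), (∀ i, χ i = 1 ∨ χ i = -1) → ∀ f : ℂ × ℝ → ℂ,
        Measurable f → IsEigenfunction p ω χ f → AlgBelow (modulus p f) →
          ∃ c : ℂ, (∀ᵐ x : ℂ × ℝ, x ∈ phase p → f x = c) ∧
            (c ≠ 0 → ω = 0 ∧ ∀ i, χ i = 1))) :=
  main_alg n p hp halg

end Pool.Agent.Results.MP_d5e7a1_an.AlgebraicPolygons
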